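import Pool.Agent.Q170.UZ.StmN

/-!
# Project UZ (helper170), job UZ-SPR: spreading out the Nullstellensatz
-/

set_option autoImplicit false
set_option linter.unusedSectionVars false

namespace Pool.Agent.Q14.UZ

open Pool.Agent.Y226 Pool.Agent.Y226.ZG Pool.Agent.Y226.ZM Pool.Agent.Q170.UZ

theorem ev_mem {R S σ : Type} [CommSemiring R] [CommRing S] (O : Subring S) (g : R →+* S)
    (x : σ → S) (f : MvPolynomial σ R) (hc : ∀ m, g (f.coeff m) ∈ O) (hx : ∀ i, x i ∈ O) :
    MvPolynomial.eval₂ g x f ∈ O := by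
  rw [MvPolynomial.eval₂_eq]
  exact O.sum_mem fun d _ => O.mul_mem (hc d) (O.prod_mem fun i _ => O.pow_mem (hx i) _)

/-- For large primes all the coefficients are integral. -/
theorem bound {κ τ : Type} [Finite κ] {r : ℕ}
    (F : κ → MvPolynomial τ (MvPolynomial (Fin r) QA)) :
    ∃ Q : ℕ, ∀ (p : ℕ) [Fact p.Prime], Q < p → ∀ (C : Type) [NormedField C]
      [IsUltrametricDist C] (φ : QA →+* C), ‖(p : C)‖ < 1 →
      ∀ k m n, ‖φ (((F k).coeff m).coeff n)‖ ≤ 1 := by
  classical
  have := Fintype.ofFinite κ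
  choose Dn hDn using integral_large
  refine ⟨∑ k, ∑ m ∈ (F k).support, ∑ n ∈ ((F k).coeff m).support,
    Dn (((F k).coeff m).coeff n), ?_⟩
  intro p _ hp C _ _ φ hp1 k m n
  by_cases hm : m ∈ (F k).support
  · by_cases hn : n ∈ ((F k).coeff m).support
    · refine hDn _ p ?_ C φ hp1
      have h1 : Dn (((F k).coeff m).coeff n) ≤
          ∑ n ∈ ((F k).coeff m).support, Dn (((F k).coeff m).coeff n) :=
        Finset.single_le_sum (f := fun n => Dn (((F k).coeff m).coeff n))
          (fun _ _ => Nat.zero_le _) hn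
      have h2 : ∑ n ∈ ((F k).coeff m).support, Dn (((F k).coeff m).coeff n) ≤
          ∑ m ∈ (F k).support, ∑ n ∈ ((F k).coeff m).support, Dn (((F k).coeff m).coeff n) :=
        Finset.single_le_sum
          (f := fun m => ∑ n ∈ ((F k).coeff m).support, Dn (((F k).coeff m).coeff n))
          (fun _ _ => Nat.zero_le _) hm
      have h3 : ∑ m ∈ (F k).support, ∑ n ∈ ((F k).coeff m).support,
          Dn (((F k).coeff m).coeff n) ≤ ∑ k, ∑ m ∈ (F k).support,
          ∑ n ∈ ((F k).coeff m).support, Dn (((F k).coeff m).coeff n) :=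
        Finset.single_le_sum
          (f := fun k => ∑ m ∈ (F k).support, ∑ n ∈ ((F k).coeff m).support,
            Dn (((F k).coeff m).coeff n))
          (fun _ _ => Nat.zero_le _) (Finset.mem_univ k)
      exact lt_of_le_of_lt (h1.trans (h2.trans h3)) hp
    · rw [MvPolynomial.notMem_support_iff.1 hn, map_zero, norm_zero]
      exact zero_le_one
  · rw [MvPolynomial.notMem_support_iff.1 hm, MvPolynomial.coeff_zero, map_zero, norm_zero]
    exact zero_le_one

/-- The Nullstellensatz over the fraction field of the image, with denominators cleared. -/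
theorem bez (r : ℕ) (τ ι : Type) [Finite τ] [Fintype ι] (𝒦 : Type) [Field 𝒦]
    [IsAlgClosed 𝒦] (π : MvPolynomial (Fin r) QA →+* 𝒦) (P : MvPolynomial (Fin r) QA)
    (hP : ∀ f, π f = 0 → P ∣ f) (h : ι → MvPolynomial τ (MvPolynomial (Fin r) QA))
    (hz : ∀ z : τ → 𝒦, ∃ i, MvPolynomial.eval₂ π z (h i) ≠ 0) :
    ∃ (E : MvPolynomial (Fin r) QA) (c : ι → MvPolynomial τ (MvPolynomial (Fin r) QA))
      (g : MvPolynomial τ (MvPolynomial (Fin r) QA)), π E ≠ 0 ∧
      MvPolynomial.C E = ∑ t, c t * h t + MvPolynomial.C P * g := by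
  classical
  let A := π.range
  let k := FractionRing A
  let j : A →+* 𝒦 := π.range.subtype
  have hj : Function.Injective j := Subtype.val_injective
  let i : k →+* 𝒦 := IsFractionRing.lift hj
  have hi : ∀ a : A, i (algebraMap A k a) = j a := fun a => IsFractionRing.lift_algebraMap hj a
  let _ : Algebra k 𝒦 := i.toAlgebra
  let ρ : MvPolynomial (Fin r) QA →+* A := π.rangeRestrict
  have hρs : Function.Surjective ρ := π.rangeRestrict_surjective
  let G : ι → MvPolynomial τ k := fun t => MvPolynomial.map ((algebraMap A k).comp ρ) (h t)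
  have hG : ∀ (z : τ → 𝒦) t, MvPolynomial.aeval z (G t) = MvPolynomial.eval₂ π z (h t) := by
    intro z t
    rw [MvPolynomial.aeval_def, MvPolynomial.eval₂_map]
    congr 1
    exact RingHom.ext fun x => hi (ρ x)
  have hI : Ideal.span (Set.range G) = ⊤ := by
    have h0 : MvPolynomial.zeroLocus 𝒦 (Ideal.span (Set.range G)) = ∅ := by
      rw [Set.eq_empty_iff_forall_notMem]
      intro z hzz
      obtain ⟨t, ht⟩ := hz z
      apply ht
      rw [← hG]
      exact hzz _ (Ideal.subset_span ⟨t, rfl⟩)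
    have h1 := MvPolynomial.vanishingIdeal_zeroLocus_eq_radical (K := 𝒦)
      (Ideal.span (Set.range G))
    rw [h0] at h1
    have h2 : (1 : MvPolynomial τ k) ∈ MvPolynomial.vanishingIdeal k (∅ : Set (τ → 𝒦)) :=
      fun x hx => absurd hx (Set.notMem_empty x)
    rw [h1, ← Ideal.eq_top_iff_one, Ideal.radical_eq_top] at h2
    exact h2
  obtain ⟨c, hc⟩ := Ideal.mem_span_range_iff_exists_fun.1 ((Ideal.eq_top_iff_one _).1 hI)
  obtain ⟨b, hb⟩ := IsLocalization.exist_integer_multiples_of_finset (nonZeroDivisors A)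
    (Finset.univ.biUnion fun t => (c t).support.image fun m => (c t).coeff m)
  have hb' : ∀ t m, ∃ a : A, algebraMap A k a = algebraMap A k b * (c t).coeff m := by
    intro t m
    by_cases hm : m ∈ (c t).support
    · obtain ⟨a, ha⟩ := hb _ (Finset.mem_biUnion.2
        ⟨t, Finset.mem_univ t, Finset.mem_image_of_mem _ hm⟩)
      refine ⟨a, ?_⟩
      rw [ha]
      exact Algebra.smul_def _ _
    · refine ⟨0, ?_⟩
      rw [MvPolynomial.notMem_support_iff.1 hm, map_zero, mul_zero]
  have hc' : ∀ t, ∃ c' : MvPolynomial τ (MvPolynomial (Fin r) QA),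
      MvPolynomial.map ((algebraMap A k).comp ρ) c' =
        MvPolynomial.C (algebraMap A k b) * c t := by
    intro t
    choose a ha using hb' t
    choose a' ha' using fun m => hρs (a m)
    refine ⟨∑ m ∈ (c t).support, MvPolynomial.monomial m (a' m), ?_⟩
    ext m
    rw [map_sum, MvPolynomial.coeff_sum, MvPolynomial.coeff_C_mul, ← ha m]
    simp only [MvPolynomial.map_monomial, MvPolynomial.coeff_monomial]
    rw [Finset.sum_ite_eq' (c t).support m]
    split_ifs with hm
    · rw [RingHom.comp_apply, ha' m]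
    · rw [ha m, MvPolynomial.notMem_support_iff.1 hm, mul_zero]
  choose c' hc' using hc'
  obtain ⟨E, hE⟩ := hρs b
  have hzero : MvPolynomial.map ρ (MvPolynomial.C E - ∑ t, c' t * h t) = 0 := by
    apply MvPolynomial.map_injective (algebraMap A k) (IsFractionRing.injective A k)
    rw [map_zero, MvPolynomial.map_map, map_sub, map_sum, MvPolynomial.map_C,
      RingHom.comp_apply, hE]
    have h3 : ∀ t, MvPolynomial.map ((algebraMap A k).comp ρ) (c' t * h t) =
        MvPolynomial.C (algebraMap A k b) * (c t * G t) := by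
      intro t
      rw [map_mul, hc', mul_assoc]
    rw [Finset.sum_congr rfl (fun t _ => h3 t), ← Finset.mul_sum, hc, mul_one, sub_self]
  obtain ⟨g, hg⟩ : MvPolynomial.C P ∣ (MvPolynomial.C E - ∑ t, c' t * h t) := by
    rw [MvPolynomial.C_dvd_iff_dvd_coeff]
    intro m
    apply hP
    have h4 := congrArg (MvPolynomial.coeff m) hzero
    rw [MvPolynomial.coeff_map, MvPolynomial.coeff_zero] at h4
    exact congrArg Subtype.val h4
  refine ⟨E, c', g, ?_, ?_⟩
  · intro h5
    have h6 : (b : A) = 0 := by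
      rw [← hE]
      exact Subtype.ext h5
    exact nonZeroDivisors.ne_zero b.2 h6
  · rw [← hg]
    ring

theorem t_SPR : S_SPR := by
  intro r τ ι _ _ 𝒦 _ _ π P hP h hz
  classical
  have := Fintype.ofFinite ι
  obtain ⟨E, c, g, hE, hEq⟩ := bez r τ ι 𝒦 π P hP h hz
  obtain ⟨Q, hQ⟩ := bound (fun o : Option ι => o.elim g c)
  refine ⟨Q, E, hE, ?_⟩
  intro C _ _ _ _ _ p _ hp hp1 φ s hs hPs hEs z hzn
  by_contra hcon
  push Not at hcon
  have hQ' := hQ p hp C φ hp1
  set ψ : MvPolynomial (Fin r) QA →+* C := φ.comp (MvPolynomial.eval s) with hψ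
  have hψm : ∀ q : MvPolynomial (Fin r) QA, (∀ n, ‖φ (q.coeff n)‖ ≤ 1) → ‖ψ q‖ ≤ 1 := by
    intro q hq
    have h1 : ψ q = MvPolynomial.eval₂ φ (fun l => φ (s l)) q := by
      rw [hψ, RingHom.comp_apply, MvPolynomial.map_eval, MvPolynomial.eval_map]
      rfl
    rw [h1]
    exact ev_mem (OO C) φ _ q hq hs
  have hev : ∀ k : Option ι, ‖MvPolynomial.eval₂ ψ z (k.elim g c)‖ ≤ 1 := fun k =>
    ev_mem (OO C) ψ z _ (fun m => hψm _ (hQ' k m)) hzn
  have h2 : ψ E = ∑ t, MvPolynomial.eval₂ ψ z (c t) * MvPolynomial.eval₂ ψ z (h t) +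
      ψ P * MvPolynomial.eval₂ ψ z g := by
    have h3 := congrArg (MvPolynomial.eval₂ ψ z) hEq
    rw [MvPolynomial.eval₂_C, MvPolynomial.eval₂_add, MvPolynomial.eval₂_mul,
      MvPolynomial.eval₂_C, MvPolynomial.eval₂_sum] at h3
    rw [h3]
    congr 1
    exact Finset.sum_congr rfl fun t _ => MvPolynomial.eval₂_mul ψ z
  have hadd : ∀ x y : C, ‖x‖ < 1 → ‖y‖ < 1 → ‖x + y‖ < 1 := fun x y hx hy =>
    (IsUltrametricDist.norm_add_le_max x y).trans_lt (max_lt hx hy)
  have h4 : ‖ψ E‖ < 1 := by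
    rw [h2]
    refine hadd _ _ ?_ ?_
    · refine Finset.sum_induction _ (fun x => ‖x‖ < 1) hadd (by rw [norm_zero]; exact one_pos)
        fun t _ => ?_
      rw [norm_mul]
      exact (mul_le_of_le_one_left (norm_nonneg _) (hev (some t))).trans_lt (hcon t)
    · rw [norm_mul]
      exact (mul_le_of_le_one_right (norm_nonneg _) (hev none)).trans_lt hPs
  have h5 : ‖ψ E‖ = 1 := hEs
  rw [h5] at h4
  exact lt_irrefl _ h4

end Pool.Agent.Q14.UZ
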