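import Pool.Agent.Q170.UZ.StmN

/-!
# Project UZ (helper170), job UZ-TAT: the Tate parameters of isogenous elliptic curves
-/

set_option autoImplicit false
set_option linter.unusedSectionVars false

open UpperHalfPlane H294ZP Polynomial

namespace Pool.Agent.Q14.UZ

open Pool.Agent.Y226 Pool.Agent.Y226.ZG Pool.Agent.Y226.ZM Pool.Agent.Q170.UZ

theorem t_TAT : S_TAT := by
  intro C _ _ _ _ _ φ N hN0 X X' hXn hrel
  set ψ := φ.comp iA with hψdef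
  have hψ : ∀ z, ‖ψ z‖ ≤ 1 := psi_norm φ
  have hrelC : PsiE ψ (mP N) (mD N) (φ X) (φ X') = 0 := by
    have h1 : rA (PsiE iA (mP N) (mD N) X X') = 0 := by
      rw [map_PsiE, rA_comp, hrel]
    have h2 : PsiE iA (mP N) (mD N) X X' = 0 := by
      apply rA.injective
      rw [h1, map_zero]
    have h3 := congrArg φ h2
    rwa [map_PsiE, ← hψdef, map_zero] at h3
  have hq1 := qT_lt hψ hXn
  have hq0 := qT_ne hψ hXn
  obtain ⟨Q, hQ⟩ := IsAlgClosed.exists_pow_nat_eq (qT ψ (φ X)) hN0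
  have hQ0 : Q ≠ 0 := by
    rintro rfl
    rw [zero_pow hN0.ne'] at hQ
    exact hq0 hQ.symm
  have hQ1 : ‖Q‖ < 1 := by
    by_contra hcon
    push Not at hcon
    have : 1 ≤ ‖Q ^ N‖ := by rw [norm_pow]; exact one_le_pow₀ hcon
    rw [hQ] at this
    exact absurd hq1 (not_lt.2 this)
  have hJX : JC ψ (Q ^ N) = φ X := by rw [hQ]; exact JC_qT hψ hXn
  rw [← hJX] at hrelC
  obtain ⟨α, δ, β, hα, hδ, hαδ, hYe⟩ := psi_roots hψ hN0 hQ0 hQ1 hrelC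
  have heZ : eZ β δ hδ ^ δ = 1 := by
    apply Subtype.ext
    show (Complex.exp (2 * Real.pi * Complex.I * β / δ)) ^ δ = 1
    rw [← Complex.exp_nat_mul]
    have e1 : (δ : ℂ) ≠ 0 := by exact_mod_cast hδ.ne'
    have e2 : (δ : ℂ) * (2 * Real.pi * Complex.I * β / δ) = β * (2 * Real.pi * Complex.I) := by
      field_simp
    rw [e2]
    exact Complex.exp_int_mul_two_pi_mul_I β
  have huu : ψ (eZ β δ hδ) * ψ (eZ (-β) δ hδ) = 1 := by
    rw [← map_mul, eZ_mul, map_one]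
  have hu0 : ψ (eZ β δ hδ) ≠ 0 := left_ne_zero_of_mul_eq_one huu
  have hα2 : α ^ 2 ≠ 0 := pow_ne_zero _ hα.ne'
  have hz0 : ψ (eZ β δ hδ) * Q ^ (α ^ 2) ≠ 0 := mul_ne_zero hu0 (pow_ne_zero _ hQ0)
  have hz1 : ‖ψ (eZ β δ hδ) * Q ^ (α ^ 2)‖ < 1 :=
    (nmul_le (hψ _) le_rfl).trans_lt (by rw [norm_pow]; exact pow_lt_one₀ (norm_nonneg _) hQ1 hα2)
  have hYn : 1 < ‖φ X'‖ := by rw [hYe]; exact JC_norm hψ hz1 hz0
  have hqY : qT ψ (φ X') = ψ (eZ β δ hδ) * Q ^ (α ^ 2) := by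
    rw [hYe]; exact qT_JC hψ hz1 hz0
  refine ⟨hYn, δ, α, hδ, hα, ?_, ?_, ?_⟩
  · rw [← hαδ]
    exact Nat.le_mul_of_pos_left δ hα
  · rw [← hαδ]
    exact Nat.le_mul_of_pos_right α hδ
  · rw [hqY, mul_pow, ← map_pow, heZ, map_one, one_mul, ← hQ, ← pow_mul, ← pow_mul, ← hαδ]
    congr 1
    ring

end Pool.Agent.Q14.UZ
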